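import Pool.Agent.H88.Spi4

open Pool.Agent.H88.Spi

theorem Pool.Agent.Results.MP_e79ea5_an.Counter.result :
    ∃ D : Set (Fin 2 → ℂ), IsOpen D ∧ IsConnected D ∧ Bornology.IsBounded D ∧
      (∀ z ∈ frontier D, @IsConnected _ (top 2) (Gam D z)) ∧ ¬ CConvex D := by
  refine ⟨D, D_open, D_conn, ?_, fun _ => Gam_conn, not_cc⟩
  refine (Metric.isBounded_closedBall (x := 0) (r := 1)).subset fun y hy => ?_
  have h := hy.2
  have := h1_nn y
  have := norm_nonneg (y 0)
  have := norm_nonneg (y 1)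
  rw [H] at h
  rw [mem_closedBall_zero_iff, pi_norm_le_iff_of_nonneg zero_le_one]
  intro i
  fin_cases i
  · change ‖y 0‖ ≤ 1
    linarith
  · change ‖y 1‖ ≤ 1
    linarith
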